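import Pool.Agent.NA.Stmts

/-!
# NAL, module GEP: all the leaves of a generation are treated one after the other
-/

set_option autoImplicit false

open Finset Filter Topology MeasureTheory

noncomputable section

namespace Pool.Agent.NA.H29

open Pool.Agent.BC Pool.Agent.NA

theorem sp_mono' {X : Type} [NormedAddCommGroup X] [NormedSpace ℝ X] {z z' : ℕ → X} {K K' : ℕ}
    (h : ∀ i < K, z' i = z i) (hK : K ≤ K') : sp z K ≤ sp z' K' := by
  apply Submodule.span_mono
  rintro _ ⟨i, hi, rfl⟩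
  have hi' : i < K := hi
  exact ⟨i, lt_of_lt_of_le hi' hK, h i hi'⟩

theorem prod_le {η : ℝ} (h0 : 0 < η) (h1 : η ≤ 1 / 10) (L : ℕ) :
    ∏ i ∈ range L, (1 + η / 2 ^ (i + 2)) ≤ 1 + η * (1 - 1 / 2 ^ L) := by
  induction L with
  | zero => simp
  | succ L ih =>
    rw [prod_range_succ]
    have hp : (0 : ℝ) < 2 ^ L := by positivity
    have ha : 0 < η / 2 ^ (L + 2) := by positivity
    have hq : (1 : ℝ) / 2 ^ L ≤ 1 := by
      rw [div_le_one hp]
      exact one_le_pow₀ (by norm_num)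
    have hq0 : (0 : ℝ) < 1 / 2 ^ L := by positivity
    have e1 : η / 2 ^ (L + 2) = η * (1 / 2 ^ L) / 4 := by
      rw [pow_add]
      field_simp
      norm_num
    have e2 : (1 : ℝ) / 2 ^ (L + 1) = (1 / 2 ^ L) / 2 := by
      rw [pow_succ]
      field_simp
    calc (∏ i ∈ range L, (1 + η / 2 ^ (i + 2))) * (1 + η / 2 ^ (L + 2))
        ≤ (1 + η * (1 - 1 / 2 ^ L)) * (1 + η / 2 ^ (L + 2)) :=
          mul_le_mul_of_nonneg_right ih (by linarith)
      _ ≤ 1 + η * (1 - 1 / 2 ^ (L + 1)) := by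
          rw [e1, e2]
          generalize (1 : ℝ) / 2 ^ L = q at hq hq0
          have h2 : η * (1 - q) ≤ 1 := by nlinarith
          have h3 : 0 < η * q := mul_pos h0 hq0
          nlinarith

theorem gep (hlef : LefStmt) (hlnc : LncStmt) : GepStmt := by
  intro X _ _ r hr hr1 hR NN δ hN εf ρ η z K L V u bt hu hL hεf hρ hη hη1
  have hC : (1 : ℝ) ≤ 6 / r := by
    rw [le_div_iff₀ hr]
    linarith
  obtain ⟨c1, c2, c3, c4, -⟩ := hlnc X (6 / r) hC
  have key : ∀ L' ≤ L, ∃ (z' : ℕ → X) (K' : ℕ) (kk : ℕ → ℕ) (V' u' : ℕ → ℕ → X) (bt' : ℕ → ℕ),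
      (∀ i < K, z' i = z i) ∧ K + L' ≤ K' ∧
      Lnk (6 / r) z' K K' (∏ i ∈ range L', (1 + η / 2 ^ (i + 2))) ∧
      ∀ i < L', 1 ≤ kk i ∧ ∑ m ∈ range (2 ^ kk i), V' i m = (2 : ℝ) ^ kk i • V i ∧
        ∀ m < 2 ^ kk i, u' i m ∈ NN ∧ V' i m - V i ∈ sp z' K' ∧
          Kin δ (εf (bt i)) ρ (V i) (u i) (bt i) (V' i m) (u' i m) (bt' i) := by
    intro L'
    induction L' with
    | zero =>
      intro _
      refine ⟨z, K, fun _ => 1, fun _ _ => 0, fun _ _ => 0, fun _ => 0, fun _ _ => rfl, by omega,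
        ?_, fun i hi => absurd hi (Nat.not_lt_zero i)⟩
      rw [range_zero, prod_empty]
      exact c2 z K
    | succ L' ih =>
      intro hL'
      obtain ⟨z1, K1, kk, V1, u1, bt1, h1, h2, h3, h4⟩ := ih (by omega)
      have hη2 : 0 < η / 2 ^ (L' + 2) := by positivity
      have hη3 : η / 2 ^ (L' + 2) ≤ 1 / 10 := by
        refine le_trans ?_ hη1
        apply div_le_self hη.le
        exact one_le_pow₀ (by norm_num)
      obtain ⟨z2, K2, k, V2, u2, b2, ⟨g1, g2, g3, g4, g5, g6⟩, g7⟩ :=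
        hlef X r hr hr1 hR NN δ hN (εf (bt L')) ρ (η / 2 ^ (L' + 2)) z1 K1 (V L') (u L') (bt L')
          (hu L' (by omega)) (hεf _).1 (hεf _).2 hρ hη2 hη3
      have hz : ∀ i < K, z2 i = z i := fun i hi => by
        rw [g1 i (by omega), h1 i hi]
      have hsp : sp z1 K1 ≤ sp z2 K2 := sp_mono' g1 g2.le
      refine ⟨z2, K2, fun i => if i = L' then k else kk i, fun i => if i = L' then V2 else V1 i,
        fun i => if i = L' then u2 else u1 i, fun i => if i = L' then b2 else bt1 i, hz,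
        by omega, ?_, ?_⟩
      · rw [prod_range_succ]
        exact c4 z2 K K1 K2 _ _ (c1 z1 z2 K K1 _ g1 h3) g3
      · intro i hi
        by_cases hiL : i = L'
        · subst hiL
          simp only [if_true]
          exact ⟨g4, g5, fun m hm => ⟨(g6 m hm).1, (g6 m hm).2, g7 m hm⟩⟩
        · simp only [if_neg hiL]
          obtain ⟨f1, f2, f3⟩ := h4 i (by omega)
          exact ⟨f1, f2, fun m hm => ⟨(f3 m hm).1, hsp (f3 m hm).2.1, (f3 m hm).2.2⟩⟩
  obtain ⟨z', K', kk, V', u', bt', h1, h2, h3, h4⟩ := key L le_rfl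
  refine ⟨z', K', kk, V', u', bt', h1, by omega, ?_, h4⟩
  refine c3 z' K K' _ _ ((prod_le hη hη1 L).trans ?_) h3
  have : (0 : ℝ) < 1 / 2 ^ L := by positivity
  nlinarith

end Pool.Agent.NA.H29
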